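import Pool.Agent.Q134.FA.Pot

set_option autoImplicit false

/-!
Dense subgroups and trees with separable edge stabilizers.
-/

namespace Pool.Agent.Q134.FA

open SimpleGraph Equiv
open scoped Classical

variable {H : Type} [Group H]

/-- the action on the cosets and one more point -/
def rho (L : Subgroup H) : H →* Perm (Option (H ⧸ L)) where
  toFun h := Equiv.optionCongr (MulAction.toPerm h)
  map_one' := by
    ext a
    cases a <;> simp
  map_mul' g h := by
    ext a
    cases a <;> simp [mul_smul]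

lemma rho_none (L : Subgroup H) (h : H) : rho L h none = none := by
  simp [rho]

lemma rho_some (L : Subgroup H) (h g : H) :
    rho L h (some (g : H ⧸ L)) = some ((h * g : H) : H ⧸ L) := by
  simp [rho]

section tree

variable {V : Type} [MulAction H V] (T : SimpleGraph V) (v w : V) (L : Subgroup H)

/-- `g` carries the edge `v w` to the edge `x y` -/
def Carry (v w x y : V) (g : H) : Prop := (g • v = x ∧ g • w = y) ∨ (g • v = y ∧ g • w = x)

/-- the transposition at the edge `x y` -/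
noncomputable def th (x y : V) : Perm (Option (H ⧸ L)) :=
  if h : ∃ g : H, Carry v w x y g then Equiv.swap (some ((h.choose : H) : H ⧸ L)) none else 1

variable {T v w L}

lemma carry_unique (hinv : ∀ (h : H) (x y : V), T.Adj x y → ¬ (h • x = y ∧ h • y = x))
    (hL : ∀ g : H, g • v = v → g • w = w → g ∈ L) {x y : V} (hxy : T.Adj x y) {g g' : H}
    (hg : Carry v w x y g) (hg' : Carry v w x y g') : (g : H ⧸ L) = (g' : H ⧸ L) := by
  rw [QuotientGroup.eq]
  rcases hg with ⟨h1, h2⟩ | ⟨h1, h2⟩ <;> rcases hg' with ⟨h3, h4⟩ | ⟨h3, h4⟩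
  · refine hL _ ?_ ?_
    · rw [mul_smul, h3, ← h1, inv_smul_smul]
    · rw [mul_smul, h4, ← h2, inv_smul_smul]
  · exfalso
    refine hinv (g' * g⁻¹) x y hxy ⟨?_, ?_⟩
    · rw [mul_smul, ← h1, inv_smul_smul, h3]
    · rw [mul_smul, ← h2, inv_smul_smul, h4]
  · exfalso
    refine hinv (g * g'⁻¹) x y hxy ⟨?_, ?_⟩
    · rw [mul_smul, ← h3, inv_smul_smul, h1]
    · rw [mul_smul, ← h4, inv_smul_smul, h2]
  · refine hL _ ?_ ?_
    · rw [mul_smul, h3, ← h1, inv_smul_smul]
    · rw [mul_smul, h4, ← h2, inv_smul_smul]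

lemma th_pos (hinv : ∀ (h : H) (x y : V), T.Adj x y → ¬ (h • x = y ∧ h • y = x))
    (hL : ∀ g : H, g • v = v → g • w = w → g ∈ L) {x y : V} (hxy : T.Adj x y) {g : H}
    (hg : Carry v w x y g) : th v w L x y = Equiv.swap (some (g : H ⧸ L)) none := by
  have h : ∃ g : H, Carry v w x y g := ⟨g, hg⟩
  unfold th
  rw [dif_pos h, carry_unique hinv hL hxy h.choose_spec hg]

lemma th_neg {x y : V} (h : ¬ ∃ g : H, Carry v w x y g) : th v w L x y = 1 := by
  unfold th
  rw [dif_neg h]

lemma carry_symm {x y : V} {g : H} (h : Carry v w x y g) : Carry v w y x g := h.symm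

lemma th_inv (hinv : ∀ (h : H) (x y : V), T.Adj x y → ¬ (h • x = y ∧ h • y = x))
    (hL : ∀ g : H, g • v = v → g • w = w → g ∈ L) {x y : V} (hxy : T.Adj x y) :
    th v w L x y * th v w L y x = 1 := by
  by_cases h : ∃ g : H, Carry v w x y g
  · obtain ⟨g, hg⟩ := h
    rw [th_pos hinv hL hxy hg, th_pos hinv hL hxy.symm (carry_symm hg), Equiv.swap_mul_self]
  · have h' : ¬ ∃ g : H, Carry v w y x g := fun ⟨g, hg⟩ => h ⟨g, carry_symm hg⟩
    rw [th_neg h, th_neg h', one_mul]

lemma th_equi (hadj : ∀ (h : H) (x y : V), T.Adj x y → T.Adj (h • x) (h • y))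
    (hinv : ∀ (h : H) (x y : V), T.Adj x y → ¬ (h • x = y ∧ h • y = x))
    (hL : ∀ g : H, g • v = v → g • w = w → g ∈ L) {x y : V} (hxy : T.Adj x y) (h : H) :
    rho L h * th v w L x y = th v w L (h • x) (h • y) * rho L h := by
  by_cases hc : ∃ g : H, Carry v w x y g
  · obtain ⟨g, hg⟩ := hc
    have hg' : Carry v w (h • x) (h • y) (h * g) := by
      rcases hg with ⟨h1, h2⟩ | ⟨h1, h2⟩
      · left
        rw [mul_smul, mul_smul, h1, h2]
        exact ⟨rfl, rfl⟩
      · right
        rw [mul_smul, mul_smul, h1, h2]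
        exact ⟨rfl, rfl⟩
    rw [th_pos hinv hL hxy hg, th_pos hinv hL (hadj h x y hxy) hg', Equiv.mul_swap_eq_swap_mul,
      rho_some, rho_none]
  · have hc' : ¬ ∃ g : H, Carry v w (h • x) (h • y) g := by
      rintro ⟨g, hg⟩
      refine hc ⟨h⁻¹ * g, ?_⟩
      rcases hg with ⟨h1, h2⟩ | ⟨h1, h2⟩
      · left
        rw [mul_smul, mul_smul, h1, h2, inv_smul_smul, inv_smul_smul]
        exact ⟨rfl, rfl⟩
      · right
        rw [mul_smul, mul_smul, h1, h2, inv_smul_smul, inv_smul_smul]
        exact ⟨rfl, rfl⟩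
    rw [th_neg hc, th_neg hc', one_mul, mul_one]

/-- **the twisted action** -/
theorem exists_twist (hT : T.IsTree)
    (hadj : ∀ (h : H) (x y : V), T.Adj x y → T.Adj (h • x) (h • y))
    (hinv : ∀ (h : H) (x y : V), T.Adj x y → ¬ (h • x = y ∧ h • y = x))
    (hL : ∀ g : H, g • v = v → g • w = w → g ∈ L) :
    ∃ (Φ : V → Perm (Option (H ⧸ L))) (σ : H →* Perm (Option (H ⧸ L))), Φ v = 1 ∧
      (∀ x y, T.Adj x y → Φ y = Φ x * th v w L x y) ∧ ∀ h, σ h = Φ (h • v) * rho L h := by
  obtain ⟨Φ, hΦ1, hΦ⟩ := exists_potential hT v (th v w L) (fun x y hxy => th_inv hinv hL hxy)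
  have key : ∀ (g : H) (x : V), Φ (g • x) * rho L g = Φ (g • v) * rho L g * Φ x := by
    intro g x
    obtain ⟨p⟩ := hT.connected.preconnected v x
    have : ∀ (a b : V) (p : T.Walk a b), Φ (g • a) * rho L g = Φ (g • v) * rho L g * Φ a →
        Φ (g • b) * rho L g = Φ (g • v) * rho L g * Φ b := by
      intro a b p
      induction p with
      | nil => exact id
      | @cons a c b hac p ih =>
        intro ha
        apply ih
        rw [hΦ (g • a) (g • c) (hadj g a c hac), hΦ a c hac, mul_assoc,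
          ← th_equi hadj hinv hL hac g, ← mul_assoc, ha, mul_assoc]
    refine this v x p ?_
    rw [hΦ1, mul_one]
  refine ⟨Φ, MonoidHom.mk' (fun h => Φ (h • v) * rho L h) ?_, hΦ1, hΦ, fun h => rfl⟩
  intro g h
  show Φ ((g * h) • v) * rho L (g * h) = Φ (g • v) * rho L g * (Φ (h • v) * rho L h)
  rw [mul_smul, map_mul, ← mul_assoc, key g (h • v), mul_assoc]

end tree

/-- **Dense subgroups fix no new vertex.** -/
theorem fixed_of_dense {G : Type} [Group G] (u : G →* H)
    (hdense : ∀ M : Subgroup H, M.Normal → M.index ≠ 0 → ∀ h : H, ∃ g : G, ∃ m ∈ M, h = u g * m)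
    {V : Type} [MulAction H V] (T : SimpleGraph V) (hT : T.IsTree)
    (hadj : ∀ (h : H) (x y : V), T.Adj x y → T.Adj (h • x) (h • y))
    (hinv : ∀ (h : H) (x y : V), T.Adj x y → ¬ (h • x = y ∧ h • y = x))
    (v : V) (hv : ∀ g : G, u g • v = v)
    (hsep : ∀ w, T.Adj v w → ∀ h : H, ¬ (h • v = v ∧ h • w = w) →
      ∃ M : Subgroup H, M.Normal ∧ M.index ≠ 0 ∧ ∀ m ∈ M, ¬ ((h * m) • v = v ∧ (h * m) • w = w)) :
    ∀ h : H, h • v = v := by
  by_contra hcon
  push Not at hcon
  -- minimal displacement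
  let S : Set ℕ := {n | ∃ h : H, h • v ≠ v ∧ T.dist v (h • v) = n}
  have hS : S.Nonempty := by
    obtain ⟨h, hh⟩ := hcon
    exact ⟨_, h, hh, rfl⟩
  obtain ⟨h, hh, hn⟩ := Nat.sInf_mem hS
  have hmin : ∀ g : H, g • v ≠ v → sInf S ≤ T.dist v (g • v) := fun g hg =>
    Nat.sInf_le ⟨g, hg, rfl⟩
  obtain ⟨p, hp⟩ := hT.connected.exists_walk_length_eq_dist v (h • v)
  set n := sInf S with hndef
  have hpn : p.length = n := by rw [hp, hn]
  have hn1 : 1 ≤ n := by
    rw [← hn]
    exact Nat.one_le_iff_ne_zero.2 (fun h0 => hh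
      ((hT.connected.dist_eq_zero_iff).1 h0).symm)
  have hdi : ∀ i, T.dist v (p.getVert i) ≤ i := by
    intro i
    have h1 := SimpleGraph.dist_le (p.take i)
    rw [Walk.take_length] at h1
    exact h1.trans (min_le_left _ _)
  have hne : ∀ i, 1 ≤ i → i ≤ n → p.getVert i ≠ v := by
    intro i hi1 hin h0
    have h1 := SimpleGraph.dist_le (p.drop i)
    rw [Walk.drop_length, h0] at h1
    omega
  set w := p.getVert 1 with hw
  have hvw : T.Adj v w := by
    have := p.adj_getVert_succ (i := 0) (by omega)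
    rwa [Walk.getVert_zero] at this
  have hend : p.getVert n = h • v := by
    rw [← hpn]
    exact p.getVert_length
  -- the separating subgroup
  obtain ⟨g₀, hg₀, hg₀'⟩ : ∃ g₀ : H, g₀ • v = h • v ∧
      ∀ g : H, g • v = h • v → g • w = p.getVert (n - 1) → g₀ • w = p.getVert (n - 1) := by
    by_cases hc : ∃ g : H, g • v = h • v ∧ g • w = p.getVert (n - 1)
    · obtain ⟨g, h1, h2⟩ := hc
      exact ⟨g, h1, fun _ _ _ => h2⟩
    · exact ⟨h, rfl, fun g h1 h2 => absurd ⟨g, h1, h2⟩ hc⟩
  obtain ⟨M, hMn, hMi, hM⟩ := hsep w hvw g₀ (fun hc => hh (by rw [← hg₀]; exact hc.1))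
  let C : Subgroup H := MulAction.stabilizer H v ⊓ MulAction.stabilizer H w
  let L : Subgroup H := C ⊔ M
  have hL : ∀ g : H, g • v = v → g • w = w → g ∈ L := fun g h1 h2 =>
    (le_sup_left : C ≤ L) ⟨h1, h2⟩
  have hg₀L : g₀ ∉ L := by
    intro hmem
    obtain ⟨c, hc, m, hm, hcm⟩ := Subgroup.mem_sup_of_normal_right.1 hmem
    refine hM m⁻¹ (M.inv_mem hm) ?_
    have h1 : g₀ * m⁻¹ = c := by rw [← hcm, mul_inv_cancel_right]
    rw [h1]
    exact ⟨hc.1, hc.2⟩
  have hLi : L.index ≠ 0 := by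
    intro h0
    have h1 : L.index ∣ M.index := Subgroup.index_dvd_of_le le_sup_right
    rw [h0, zero_dvd_iff] at h1
    exact hMi h1
  have hLfin : Finite (H ⧸ L) := Nat.finite_of_card_ne_zero hLi
  obtain ⟨Φ, σ, hΦ1, hΦ, hσ⟩ := exists_twist (L := L) hT hadj hinv hL
  -- everything fixes `none`
  have hfix : ∀ h : H, Φ (h • v) none = none := by
    intro h
    have hker : σ.ker.index ≠ 0 := by
      rw [Subgroup.index_ker]
      exact Nat.card_pos.ne'
    obtain ⟨g, m, hm, hgm⟩ := hdense σ.ker inferInstance hker h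
    have h1 : σ h none = none := by
      rw [hgm, map_mul, MonoidHom.mem_ker.1 hm, mul_one, hσ, hv, hΦ1, one_mul, rho_none]
    rw [hσ, Perm.mul_apply, rho_none] at h1
    exact h1
  have hw1 : Φ w = Equiv.swap (some ((1 : H) : H ⧸ L)) none := by
    rw [hΦ v w hvw, hΦ1, one_mul]
    exact th_pos hinv hL hvw (Or.inl ⟨one_smul _ _, one_smul _ _⟩)
  have hmid : ∀ i, 1 ≤ i → i < n → Φ (p.getVert i) = Φ w := by
    intro i hi
    induction i, hi using Nat.le_induction with
    | base => intro _; rfl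
    | succ i hi ih =>
      intro hin
      have hadj' : T.Adj (p.getVert i) (p.getVert (i + 1)) := p.adj_getVert_succ (by omega)
      rw [hΦ _ _ hadj', ih (by omega), th_neg, mul_one]
      rintro ⟨g, ⟨h1, -⟩ | ⟨h1, -⟩⟩
      · have h2 := hmin g (by rw [h1]; exact hne i hi (by omega))
        have h3 := hdi i
        rw [h1] at h2
        omega
      · have h2 := hmin g (by rw [h1]; exact hne (i + 1) (by omega) (by omega))
        have h3 := hdi (i + 1)
        rw [h1] at h2
        omega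
  have hlast : Φ (h • v) = Φ w ∨ Φ (h • v) = Φ w * Equiv.swap (some (g₀ : H ⧸ L)) none := by
    rcases Nat.lt_or_ge 1 n with hn2 | hn2
    · have hadj' : T.Adj (p.getVert (n - 1)) (p.getVert n) := by
        have := p.adj_getVert_succ (i := n - 1) (by omega)
        rwa [Nat.sub_add_cancel hn1] at this
      rw [hend] at hadj'
      by_cases hc : ∃ g : H, Carry v w (p.getVert (n - 1)) (h • v) g
      · obtain ⟨g, hg⟩ := hc
        right
        rw [hΦ _ _ hadj', hmid (n - 1) (by omega) (by omega)]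
        rcases hg with ⟨h1, -⟩ | ⟨h1, h2⟩
        · exfalso
          have h3 := hmin g (by rw [h1]; exact hne (n - 1) (by omega) (by omega))
          have h4 := hdi (n - 1)
          rw [h1] at h3
          omega
        · rw [th_pos hinv hL hadj' (g := g₀) (Or.inr ⟨hg₀, hg₀' g h1 h2⟩)]
      · left
        rw [hΦ _ _ hadj', hmid (n - 1) (by omega) (by omega), th_neg hc, mul_one]
    · left
      have : n = 1 := by omega
      rw [← hend, this]
  have h1 := hfix h
  rcases hlast with h2 | h2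
  · rw [h2, hw1, Equiv.swap_apply_right] at h1
    exact absurd h1 (by simp)
  · rw [h2, Perm.mul_apply, Equiv.swap_apply_right, hw1, Equiv.swap_apply_of_ne_of_ne] at h1
    · exact absurd h1 (by simp)
    · intro h3
      apply hg₀L
      have h4 := Option.some_injective _ h3
      have h5 := QuotientGroup.eq.1 h4.symm
      simpa using h5
    · simp

end Pool.Agent.Q134.FA
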