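import Mathlib

set_option autoImplicit false

/-!
Potentials on trees.
-/

namespace Pool.Agent.Q134.FA

open SimpleGraph

variable {V P : Type} [Group P] {T : SimpleGraph V}

/-- the product along a walk -/
def prodW (θ : V → V → P) : ∀ {x y : V}, T.Walk x y → P
  | _, _, .nil => 1
  | x, _, .cons (v := z) _ p => θ x z * prodW θ p

lemma prodW_concat (θ : V → V → P) {x y z : V} (p : T.Walk x y) (h : T.Adj y z) :
    prodW θ (p.concat h) = prodW θ p * θ y z := by
  induction p with
  | nil => simp [prodW, Walk.concat]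
  | cons h' p ih =>
    rw [Walk.concat_cons, prodW, ih, prodW, mul_assoc]

/-- **potentials** -/
theorem exists_potential (hT : T.IsTree) (v : V) (θ : V → V → P)
    (hθ : ∀ x y, T.Adj x y → θ x y * θ y x = 1) :
    ∃ Φ : V → P, Φ v = 1 ∧ ∀ x y, T.Adj x y → Φ y = Φ x * θ x y := by
  choose p hp hp' using fun x => hT.existsUnique_path v x
  refine ⟨fun x => prodW θ (p x), ?_, ?_⟩
  · have h1 : (Walk.nil : T.Walk v v) = p v := hp' v _ Walk.IsPath.nil
    show prodW θ (p v) = 1
    rw [← h1]
    rfl
  · intro x y hxy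
    show prodW θ (p y) = prodW θ (p x) * θ x y
    by_cases h : x ∈ (p y).support
    · have h1 := hT.isAcyclic.path_concat (hp x) (hp y) hxy h
      rw [h1, prodW_concat]
    · have h2 : y ∈ (p x).support :=
        hT.isAcyclic.mem_support_of_ne_mem_support_of_adj_of_isPath (hp x) (hp y) hxy h
      have h1 := hT.isAcyclic.path_concat (hp y) (hp x) hxy.symm h2
      rw [h1, prodW_concat, mul_assoc, hθ y x hxy.symm, mul_one]

end Pool.Agent.Q134.FA
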